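import Mathlib

set_option autoImplicit false

namespace Pool.Agent.Lib.MP_7bc96b_al

open Finset

variable {X : Type*} [AddCommGroup X] {n : ℕ}

/-- nonnegative integer relations with support in `I` -/
def Rel (χ : Fin n → X) (I : Finset (Fin n)) : Set (Fin n → ℤ) :=
  {m | (∀ i, 0 ≤ m i) ∧ (∀ i, i ∉ I → m i = 0) ∧ ∑ i, m i • χ i = 0}

/-- A nonzero integer relation among vectors of a torsion free group can be taken with a
coefficient prime to `p`. -/
lemma exists_rel_not_dvd {r : ℕ} (p : ℤ) (hp : Prime p) (v : Fin n → (Fin r → ℤ))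
    (S : Finset (Fin n)) (s0 : Fin n) :
    ∀ (k : ℕ) (a : Fin n → ℤ), (a s0).natAbs = k → a s0 ≠ 0 → (∀ i, i ∉ S → a i = 0) →
      ∑ i, a i • v i = 0 →
      ∃ b : Fin n → ℤ, (∀ i, i ∉ S → b i = 0) ∧ ∑ i, b i • v i = 0 ∧ ∃ s, ¬ p ∣ b s := by
  intro k
  induction k using Nat.strong_induction_on with
  | _ k ih =>
    intro a hk h0 hS hrel
    by_cases hall : ∀ s, p ∣ a s
    · choose b hb using hall
      have hp0 : p ≠ 0 := hp.ne_zero
      have hb0 : b s0 ≠ 0 := by
        intro h
        apply h0
        rw [hb s0, h, mul_zero]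
      have hp2 : 2 ≤ p.natAbs := (Int.prime_iff_natAbs_prime.mp hp).two_le
      have hlt : (b s0).natAbs < k := by
        rw [← hk, hb s0, Int.natAbs_mul]
        have : 0 < (b s0).natAbs := Int.natAbs_pos.mpr hb0
        nlinarith
      refine ih _ hlt b rfl hb0 ?_ ?_
      · intro i hi
        have := hS i hi
        rw [hb i] at this
        exact (mul_eq_zero.mp this).resolve_left hp0
      · have h1 : p • ∑ i, b i • v i = 0 := by
          rw [Finset.smul_sum, ← hrel]
          refine Finset.sum_congr rfl fun i _ => ?_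
          rw [smul_smul, ← hb i]
        exact (smul_eq_zero.mp h1).resolve_left hp0
    · push Not at hall
      exact ⟨a, hS, hrel, hall⟩

/-- More than `finrank` vectors satisfy a nonzero integer relation. -/
lemma exists_rel_of_card_gt {Y : Type*} [AddCommGroup Y] [Module.Finite ℤ Y] (v : Fin n → Y)
    (S : Finset (Fin n)) (h : Module.finrank ℤ Y < S.card) :
    ∃ a : Fin n → ℤ, (∀ i, i ∉ S → a i = 0) ∧ ∑ i, a i • v i = 0 ∧ ∃ s, a s ≠ 0 := by
  classical
  have hnot : ¬ LinearIndependent ℤ (fun s : S => v s) := by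
    intro hli
    have := hli.fintype_card_le_finrank
    rw [Fintype.card_coe] at this
    omega
  rw [Fintype.not_linearIndependent_iff] at hnot
  obtain ⟨g, hg, s, hs⟩ := hnot
  refine ⟨fun i => if hi : i ∈ S then g ⟨i, hi⟩ else 0, ?_, ?_, s, ?_⟩
  · intro i hi
    simp [hi]
  · rw [← hg, ← Finset.sum_subset (Finset.subset_univ S)]
    · rw [← Finset.sum_coe_sort S]
      refine Finset.sum_congr rfl fun i _ => ?_
      simp
    · intro i _ hi
      simp [hi]
  · simpa using hs

/-- Local generation: a small subfamily generates after inverting an integer prime to `p`. -/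
lemma exists_local_gen [AddGroup.FG X] (χ : Fin n → X) (I : Finset (Fin n)) (p : ℤ)
    (hp : Prime p) :
    ∃ S : Finset (Fin n), S ⊆ I ∧ S.card ≤ AddGroup.rank X ∧ ∃ c : ℤ, 0 < c ∧ ¬ p ∣ c ∧
      ∀ i ∈ I, ∃ a : Fin n → ℤ, (∀ j, j ∉ S → a j = 0) ∧ c • χ i = ∑ j, a j • χ j := by
  classical
  let P : ℕ → Prop := fun k => ∃ S : Finset (Fin n), S ⊆ I ∧ S.card = k ∧ ∃ c : ℤ, 0 < c ∧
      ¬ p ∣ c ∧ ∀ i ∈ I, ∃ a : Fin n → ℤ, (∀ j, j ∉ S → a j = 0) ∧ c • χ i = ∑ j, a j • χ j
  have hex : ∃ k, P k := by
    refine ⟨I.card, I, Finset.Subset.refl _, rfl, 1, one_pos, hp.not_dvd_one, fun i hi => ?_⟩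
    refine ⟨Pi.single i 1, fun j hj => ?_, ?_⟩
    · have : j ≠ i := fun h => hj (h ▸ hi)
      simp [this]
    · rw [Finset.sum_eq_single i]
      · simp
      · intro j _ hj
        simp [hj]
      · simp
  obtain ⟨S, hSI, hcard, c, hc0, hpc, hgen⟩ := Nat.find_spec hex
  refine ⟨S, hSI, ?_, c, hc0, hpc, hgen⟩
  by_contra hlt
  push Not at hlt
  obtain ⟨G, hG, hGtop⟩ := AddGroup.rank_spec X
  -- lift to a free group
  let e : Fin G.card ≃ G := G.equivFin.symm
  let π : (Fin G.card → ℤ) →ₗ[ℤ] X := Fintype.linearCombination ℤ (fun k => (e k : X))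
  have hπ : Function.Surjective π := by
    rw [← LinearMap.range_eq_top, Fintype.range_linearCombination]
    have h1 : Set.range (fun k => (e k : X)) = (G : Set X) := by
      ext x
      constructor
      · rintro ⟨k, rfl⟩
        exact (e k).2
      · intro hx
        exact ⟨e.symm ⟨x, hx⟩, by simp⟩
    rw [h1]
    apply Submodule.toAddSubgroup_injective
    rw [Submodule.span_int_eq_addSubgroupClosure, hGtop]
    rfl
  choose v hv using fun i => hπ (χ i)
  obtain ⟨a, haS, harel, s0, hs0⟩ := exists_rel_of_card_gt v S (by simpa [hG] using hlt)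
  obtain ⟨b, hbS, hbrel, s, hs⟩ := exists_rel_not_dvd p hp v S s0 _ a rfl hs0 haS harel
  have hbχ : ∑ i, b i • χ i = 0 := by
    have := congrArg π hbrel
    rw [map_sum, map_zero] at this
    rw [← this]
    refine Finset.sum_congr rfl fun i _ => ?_
    rw [map_smul, hv]
  have hbs0 : b s ≠ 0 := fun h => hs (h ▸ dvd_zero p)
  have hsS : s ∈ S := by
    by_contra h
    exact hbs0 (hbS s h)
  have hmin := Nat.find_min hex (m := (S.erase s).card) (by
    rw [← hcard]
    exact Finset.card_erase_lt_of_mem hsS)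
  apply hmin
  refine ⟨S.erase s, (Finset.erase_subset _ _).trans hSI, rfl, b s * b s * c,
    mul_pos (mul_self_pos.mpr hbs0) hc0, ?_, fun i hi => ?_⟩
  · intro h
    rcases hp.dvd_or_dvd h with h | h
    · rcases hp.dvd_or_dvd h with h | h <;> exact hs h
    · exact hpc h
  · obtain ⟨a', ha'S, ha'⟩ := hgen i hi
    refine ⟨fun j => b s * (b s * a' j - a' s * b j), fun j hj => ?_, ?_⟩
    · by_cases hjs : j = s
      · subst hjs
        ring
      · have : j ∉ S := fun h => hj (Finset.mem_erase.mpr ⟨hjs, h⟩)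
        simp [ha'S j this, hbS j this]
    · have h2 : ∑ j, (b s * (b s * a' j - a' s * b j)) • χ j =
          (b s * b s) • ∑ j, a' j • χ j - (b s * a' s) • ∑ j, b j • χ j := by
        rw [Finset.smul_sum, Finset.smul_sum, ← Finset.sum_sub_distrib]
        refine Finset.sum_congr rfl fun j _ => ?_
        rw [smul_smul, smul_smul, ← sub_smul]
        congr 1
        ring
      rw [h2, hbχ, smul_zero, sub_zero, ← ha', smul_smul]

/-- Conic Caratheodory over the integers. -/
lemma exists_small_pos [Module.Finite ℤ X] (χ : Fin n → X) (I S : Finset (Fin n))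
    (u : Fin n → ℤ) (hu : u ∈ Rel χ I) (huS : ∀ s ∈ S, 0 < u s) :
    ∃ T : Finset (Fin n), T ⊆ I ∧ T.card ≤ Module.finrank ℤ X ∧
      ∃ v ∈ Rel χ (S ∪ T), ∀ s ∈ S, 0 < v s := by
  classical
  let P : ℕ → Prop := fun k => ∃ T : Finset (Fin n), T ⊆ I ∧ T.card = k ∧
      ∃ v ∈ Rel χ (S ∪ T), ∀ s ∈ S, 0 < v s
  have hex : ∃ k, P k := by
    refine ⟨I.card, I, Finset.Subset.refl _, rfl, u, ⟨hu.1, fun i hi => hu.2.1 i ?_, hu.2.2⟩, huS⟩
    intro h
    exact hi (Finset.mem_union_right _ h)
  obtain ⟨T, hTI, hcard, v, hv, hvS⟩ := Nat.find_spec hex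
  refine ⟨T, hTI, ?_, v, hv, hvS⟩
  by_contra hlt
  push Not at hlt
  -- minimality: `T` is disjoint from `S`
  have hdisj : ∀ t ∈ T, t ∉ S := by
    intro t ht hts
    have hmin := Nat.find_min hex (m := (T.erase t).card) (by
      rw [← hcard]
      exact Finset.card_erase_lt_of_mem ht)
    apply hmin
    refine ⟨T.erase t, (Finset.erase_subset _ _).trans hTI, rfl, v,
      ⟨hv.1, fun i hi => hv.2.1 i ?_, hv.2.2⟩, hvS⟩
    intro h
    apply hi
    rcases Finset.mem_union.mp h with h | h
    · exact Finset.mem_union_left _ h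
    · by_cases hit : i = t
      · exact Finset.mem_union_left _ (hit ▸ hts)
      · exact Finset.mem_union_right _ (Finset.mem_erase.mpr ⟨hit, h⟩)
  have hpos : ∃ a : Fin n → ℤ, (∀ i, i ∉ T → a i = 0) ∧ ∑ i, a i • χ i = 0 ∧ ∃ s, 0 < a s := by
    obtain ⟨a, haT, harel, s, hs⟩ := exists_rel_of_card_gt χ T hlt
    rcases lt_or_gt_of_ne hs with h | h
    · refine ⟨-a, fun i hi => by simp [haT i hi], ?_, s, by simpa using h⟩
      simp [neg_smul, Finset.sum_neg_distrib, harel]
    · exact ⟨a, haT, harel, s, h⟩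
  obtain ⟨a, haT, harel, s, hs⟩ := hpos
  obtain ⟨t, ht, htmin⟩ := Finset.exists_min_image (Finset.univ.filter fun i => 0 < a i)
    (fun i => (v i : ℚ) / (a i : ℚ)) ⟨s, by simpa using hs⟩
  have hat : 0 < a t := by simpa using ht
  have htT : t ∈ T := by
    by_contra h
    exact hat.ne' (haT t h)
  have hmin := Nat.find_min hex (m := (T.erase t).card) (by
    rw [← hcard]
    exact Finset.card_erase_lt_of_mem htT)
  apply hmin
  refine ⟨T.erase t, (Finset.erase_subset _ _).trans hTI, rfl, fun i => a t * v i - v t * a i,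
    ⟨fun i => ?_, fun i hi => ?_, ?_⟩, fun i hi => ?_⟩
  · by_cases hi : 0 < a i
    · have h1 := htmin i (by simpa using hi)
      have hi' : (0 : ℚ) < a i := by exact_mod_cast hi
      have ht' : (0 : ℚ) < a t := by exact_mod_cast hat
      rw [div_le_div_iff₀ ht' hi'] at h1
      have h2 : v t * a i ≤ v i * a t := by exact_mod_cast h1
      linarith
    · push Not at hi
      have := hv.1 i
      have := hv.1 t
      nlinarith
  · by_cases hit : i = t
    · subst hit
      ring
    · have h1 : i ∉ T := fun h => hi (Finset.mem_union_right _ (Finset.mem_erase.mpr ⟨hit, h⟩))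
      have h2 : i ∉ S ∪ T := by
        intro h
        rcases Finset.mem_union.mp h with h | h
        · exact hi (Finset.mem_union_left _ h)
        · exact h1 h
      simp [haT i h1, hv.2.1 i h2]
  · have h2 : ∑ j, (a t * v j - v t * a j) • χ j =
        a t • ∑ j, v j • χ j - v t • ∑ j, a j • χ j := by
      rw [Finset.smul_sum, Finset.smul_sum, ← Finset.sum_sub_distrib]
      refine Finset.sum_congr rfl fun j _ => ?_
      rw [smul_smul, smul_smul, ← sub_smul]
    rw [h2, hv.2.2, harel]
    simp
  · have h1 : i ∉ T := fun h => hdisj i h hi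
    have := hvS i hi
    simp only [haT i h1, mul_zero, sub_zero]
    positivity

/-- The main inclusion. -/
theorem closure_eq [AddGroup.FG X] (χ : Fin n → X) (I : Finset (Fin n)) :
    AddSubgroup.closure (Rel χ I) =
      AddSubgroup.closure (⋃ J ∈ {J : Finset (Fin n) | J ⊆ I ∧
        J.card ≤ 1 + Module.finrank ℤ X + AddGroup.rank X}, Rel χ J) := by
  classical
  have : Module.Finite ℤ X := Module.Finite.iff_addGroup_fg.mpr inferInstance
  set N := AddSubgroup.closure (⋃ J ∈ {J : Finset (Fin n) | J ⊆ I ∧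
        J.card ≤ 1 + Module.finrank ℤ X + AddGroup.rank X}, Rel χ J) with hN
  apply le_antisymm
  swap
  · apply AddSubgroup.closure_mono
    intro m hm
    simp only [Set.mem_iUnion] at hm
    obtain ⟨J, ⟨hJ, -⟩, hm⟩ := hm
    exact ⟨hm.1, fun i hi => hm.2.1 i fun h => hi (hJ h), hm.2.2⟩
  rw [AddSubgroup.closure_le]
  intro m hm
  -- `I'` is the support of `m`
  let I' : Finset (Fin n) := Finset.univ.filter fun i => 0 < m i
  have hI' : I' ⊆ I := by
    intro i hi
    have : 0 < m i := by simpa [I'] using hi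
    by_contra h
    exact this.ne' (hm.2.1 i h)
  have hmI' : m ∈ Rel χ I' := by
    refine ⟨hm.1, fun i hi => ?_, hm.2.2⟩
    have h1 : ¬ 0 < m i := by simpa [I'] using hi
    exact le_antisymm (not_lt.mp h1) (hm.1 i)
  have key : ∀ p : ℤ, Prime p → ∃ c : ℤ, ¬ p ∣ c ∧ c • m ∈ N := by
    intro p hp
    obtain ⟨S, hSI, hScard, c, hc0, hpc, hgen⟩ := exists_local_gen χ I' p hp
    obtain ⟨T, hTI, hTcard, v, hv, hvS⟩ := exists_small_pos χ I' S m hmI'
      (fun s hs => by simpa [I'] using hSI hs)
    have hsmall : ∀ i ∈ I', ∀ w ∈ Rel χ (insert i (S ∪ T)), w ∈ N := by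
      intro i hi w hw
      apply AddSubgroup.subset_closure
      simp only [Set.mem_iUnion]
      refine ⟨insert i (S ∪ T), ⟨?_, ?_⟩, hw⟩
      · exact (Finset.insert_subset hi (Finset.union_subset hSI hTI)).trans hI'
      · have h1 := Finset.card_insert_le i (S ∪ T)
        have h2 := Finset.card_union_le S T
        omega
    have hmem : ∀ i ∈ I', ∀ w : Fin n → ℤ, ∑ j, w j • χ j = 0 → (∀ j, j ∉ S → 0 ≤ w j) →
        (∀ j, j ∉ insert i S → w j = 0) → w ∈ N := by
      intro i hi w hw hw0 hwS
      let k : ℤ := ∑ j, |w j|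
      have hk : ∀ j, |w j| ≤ k := fun j =>
        Finset.single_le_sum (f := fun j => |w j|) (fun j _ => abs_nonneg _) (Finset.mem_univ j)
      have hk0 : 0 ≤ k := Finset.sum_nonneg fun j _ => abs_nonneg _
      have hvN : v ∈ N := hsmall i hi v ⟨hv.1, fun j hj => hv.2.1 j fun h =>
        hj (Finset.mem_insert_of_mem h), hv.2.2⟩
      have hsum : w + k • v ∈ N := by
        apply hsmall i hi
        refine ⟨fun j => ?_, fun j hj => ?_, ?_⟩
        · simp only [Pi.add_apply, Pi.smul_apply, smul_eq_mul]
          by_cases hj : j ∈ S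
          · have h1 := hvS j hj
            have h2 := hk j
            have h3 := neg_abs_le (w j)
            nlinarith
          · have h1 := hw0 j hj
            have h2 := hv.1 j
            positivity
        · have h1 : j ∉ insert i S := fun h => hj (by
            rcases Finset.mem_insert.mp h with h | h
            · exact h ▸ Finset.mem_insert_self _ _
            · exact Finset.mem_insert_of_mem (Finset.mem_union_left _ h))
          have h2 : j ∉ S ∪ T := fun h => hj (Finset.mem_insert_of_mem h)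
          simp [hwS j h1, hv.2.1 j h2]
        · have h2 : ∑ j, (w + k • v) j • χ j = ∑ j, w j • χ j + k • ∑ j, v j • χ j := by
            rw [Finset.smul_sum, ← Finset.sum_add_distrib]
            refine Finset.sum_congr rfl fun j _ => ?_
            rw [smul_smul, ← add_smul]
            rfl
          rw [h2, hw, hv.2.2]
          simp
      have := N.sub_mem hsum (N.zsmul_mem hvN k)
      simpa using this
    refine ⟨c, hpc, ?_⟩
    by_cases hne : I' = ∅
    · have : m = 0 := by
        funext i
        exact hmI'.2.1 i (by simp [hne])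
      rw [this, smul_zero]
      exact N.zero_mem
    obtain ⟨i0, hi0⟩ := Finset.nonempty_iff_ne_empty.mpr hne
    choose! a haS ha using hgen
    -- the relations `r i`
    let r : Fin n → Fin n → ℤ := fun i => Pi.single i c - a i
    have hrrel : ∀ i ∈ I', ∑ j, r i j • χ j = 0 := by
      intro i hi
      have h1 : ∑ j, (Pi.single i c : Fin n → ℤ) j • χ j = c • χ i := by
        rw [Finset.sum_eq_single i]
        · simp
        · intro j _ hj
          simp [hj]
        · simp
      simp only [r, Pi.sub_apply, sub_smul, Finset.sum_sub_distrib, h1, ha i hi, sub_self]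
    have hrN : ∀ i ∈ I', r i ∈ N := by
      intro i hi
      refine hmem i hi _ (hrrel i hi) (fun j hj => ?_) (fun j hj => ?_)
      · simp only [r, Pi.sub_apply, haS i hi j hj, sub_zero]
        by_cases hji : j = i
        · subst hji
          simpa using hc0.le
        · simp [hji]
      · have h1 : j ≠ i := fun h => hj (h ▸ Finset.mem_insert_self _ _)
        have h2 : j ∉ S := fun h => hj (Finset.mem_insert_of_mem h)
        simp [r, h1, haS i hi j h2]
    let w : Fin n → ℤ := c • m - ∑ i ∈ I', m i • r i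
    have hwS : ∀ j, j ∉ S → w j = 0 := by
      intro j hj
      have h1 : ∀ i ∈ I', (m i • r i) j = if i = j then m j * c else 0 := by
        intro i hi
        simp only [r, Pi.smul_apply, Pi.sub_apply, haS i hi j hj, sub_zero, smul_eq_mul]
        by_cases hij : i = j
        · subst hij
          simp
        · simp [hij]
      simp only [w, Pi.sub_apply, Finset.sum_apply]
      rw [Finset.sum_congr rfl h1, Finset.sum_ite_eq']
      by_cases hjI : j ∈ I'
      · simp [hjI, mul_comm]
      · simp [hjI, hmI'.2.1 j hjI]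
    have hwrel : ∑ j, w j • χ j = 0 := by
      have h1 : ∑ j, w j • χ j = c • ∑ j, m j • χ j - ∑ i ∈ I', m i • ∑ j, r i j • χ j := by
        simp only [w, Pi.sub_apply, Finset.sum_apply, Pi.smul_apply, smul_eq_mul, sub_smul,
          Finset.sum_sub_distrib, Finset.smul_sum, smul_smul, Finset.sum_smul]
        rw [Finset.sum_comm]
      rw [h1, hm.2.2, smul_zero, Finset.sum_eq_zero (fun i hi => by rw [hrrel i hi, smul_zero])]
      simp
    have hwN : w ∈ N := hmem i0 hi0 w hwrel (fun j hj => (hwS j hj).ge)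
      (fun j hj => hwS j fun h => hj (Finset.mem_insert_of_mem h))
    have hsumN : ∑ i ∈ I', m i • r i ∈ N :=
      N.sum_mem fun i hi => N.zsmul_mem (hrN i hi) _
    have := N.add_mem hwN hsumN
    simpa [w] using this
  -- local to global
  let A : Ideal ℤ :=
    { carrier := {c | c • m ∈ N}
      add_mem' := fun {a b} ha hb => by
        simp only [Set.mem_ofPred_eq, add_smul] at *
        exact N.add_mem ha hb
      zero_mem' := by simp
      smul_mem' := fun a b hb => by
        simp only [Set.mem_ofPred_eq, smul_eq_mul, mul_smul] at *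
        exact N.zsmul_mem hb a }
  by_contra hmN
  have hA : A ≠ ⊤ := by
    intro h
    have : (1 : ℤ) ∈ A := h ▸ Submodule.mem_top
    apply hmN
    simpa [A] using this
  obtain ⟨M, hM, hAM⟩ := Ideal.exists_le_maximal A hA
  have hprime : ∃ p : ℤ, Prime p ∧ M = Ideal.span {p} := by
    obtain ⟨p, hp⟩ := (IsPrincipalIdealRing.principal M).principal
    have hp' : M = Ideal.span {p} := hp
    have hp0 : p ≠ 0 := by
      intro h0
      rw [h0, Ideal.span_singleton_zero] at hp'
      exact Ring.ne_bot_of_isMaximal_of_not_isField hM Int.not_isField hp'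
    exact ⟨p, (Ideal.span_singleton_prime hp0).mp (hp' ▸ hM.isPrime), hp'⟩
  obtain ⟨p, hp, hMp⟩ := hprime
  obtain ⟨c, hpc, hc⟩ := key p hp
  have : c ∈ M := hAM hc
  rw [hMp, Ideal.mem_span_singleton] at this
  exact hpc this

end Pool.Agent.Lib.MP_7bc96b_al
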