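import Mathlib

set_option autoImplicit false

namespace Pool.Agent.Lib.MP_7bc96b_al

open Finset

/-- A finitely generated abelian group has a generating family of minimal size all of whose
integer relations are divisible by one fixed prime. -/
lemma exists_gens_prime (T : Type*) [AddCommGroup T] [AddGroup.FG T] :
    ∃ (t : Fin (AddGroup.rank T) → T) (p : ℕ), 2 ≤ p ∧
      AddSubgroup.closure (Set.range t) = ⊤ ∧
      ∀ c : Fin (AddGroup.rank T) → ℤ, ∑ j, c j • t j = 0 → ∀ j, (p : ℤ) ∣ c j := by
  classical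
  obtain ⟨S, hS, hcl⟩ := AddGroup.rank_spec T
  let e : Fin (AddGroup.rank T) ≃ S := (S.equivFinOfCardEq hS).symm
  let t : Fin (AddGroup.rank T) → T := fun j => (e j : T)
  have hrange : Set.range t = (S : Set T) := by
    ext x
    constructor
    · rintro ⟨j, rfl⟩
      exact (e j).2
    · intro hx
      exact ⟨e.symm ⟨x, hx⟩, by simp [t]⟩
  let π : (Fin (AddGroup.rank T) → ℤ) →ₗ[ℤ] T := Fintype.linearCombination ℤ t
  have hπ : ∀ c, π c = ∑ j, c j • t j := fun c => Fintype.linearCombination_apply ℤ t c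
  have hsurj : Function.Surjective π := by
    rw [← LinearMap.range_eq_top, Fintype.range_linearCombination, hrange, eq_top_iff]
    intro x _
    have hx : x ∈ AddSubgroup.closure (S : Set T) := hcl ▸ AddSubgroup.mem_top x
    rw [← Submodule.span_int_eq_addSubgroupClosure] at hx
    exact hx
  obtain ⟨m, snf⟩ := (LinearMap.ker π).smithNormalForm (Pi.basisFun ℤ (Fin (AddGroup.rank T)))
  by_cases hg : (Finset.univ.gcd snf.a).natAbs = 1
  · exfalso
    obtain ⟨x, hx⟩ := Finset.gcd_eq_sum_mul Finset.univ snf.a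
    set g := Finset.univ.gcd snf.a with hgdef
    have hgg : g * g = 1 := by
      rcases Int.natAbs_eq_iff.mp hg with h | h <;> simp [h]
    let φ : (Fin (AddGroup.rank T) → ℤ) →ₗ[ℤ] ℤ := ∑ i, (g * x i) • snf.bM.coord (snf.f i)
    let v : Fin (AddGroup.rank T) → ℤ := ∑ i, (snf.bN i : Fin (AddGroup.rank T) → ℤ)
    have hv : π v = 0 := (LinearMap.ker π).sum_mem fun i _ => (snf.bN i).2
    have hφb : ∀ k, φ (snf.bM (snf.f k)) = g * x k := by
      intro k
      simp only [φ, LinearMap.sum_apply, LinearMap.smul_apply, Module.Basis.coord_apply,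
        Module.Basis.repr_self, smul_eq_mul]
      rw [Finset.sum_eq_single k]
      · simp
      · intro i _ hik
        rw [Finsupp.single_eq_of_ne (fun h => hik (snf.f.injective h)), mul_zero]
      · intro h
        exact absurd (mem_univ k) h
    have hφv : φ v = 1 := by
      simp only [v, map_sum, snf.snf, map_smul, hφb, smul_eq_mul]
      rw [← hgg]
      conv_rhs => rw [show g * g = g * ∑ i, snf.a i * x i by rw [← hx]]
      rw [Finset.mul_sum]
      exact Finset.sum_congr rfl fun i _ => by ring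
    have hφs : Function.Surjective φ := fun a => ⟨a • v, by rw [map_smul, hφv, smul_eq_mul, mul_one]⟩
    have hK : Module.finrank ℤ (LinearMap.ker φ) + 1 = AddGroup.rank T := by
      have h1 := (LinearMap.ker φ).finrank_quotient_add_finrank
      have h2 : Module.finrank ℤ ((Fin (AddGroup.rank T) → ℤ) ⧸ LinearMap.ker φ) = 1 := by
        rw [(φ.quotKerEquivOfSurjective hφs).finrank_eq]
        simp
      rw [h2] at h1
      simp only [Module.finrank_fintype_fun_eq_card, Fintype.card_fin] at h1
      omega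
    let b := Module.finBasis ℤ (LinearMap.ker φ)
    have h1 : AddGroup.rank T ≤ (univ.image fun i => π (b i)).card := by
      apply AddGroup.rank_le
      rw [eq_top_iff]
      intro y _
      obtain ⟨c, rfl⟩ := hsurj y
      have hc : c - φ c • v ∈ LinearMap.ker φ := by
        rw [LinearMap.mem_ker, map_sub, map_smul, hφv, smul_eq_mul, mul_one, sub_self]
      have h2 := congrArg (fun z : LinearMap.ker φ => π (z : Fin (AddGroup.rank T) → ℤ))
        (b.sum_repr ⟨_, hc⟩)
      simp only [AddSubmonoidClass.coe_finsetSum, SetLike.val_smul, map_sum, map_smul, map_sub,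
        hv, smul_zero, sub_zero] at h2
      rw [← h2]
      refine AddSubgroup.sum_mem _ fun i _ => AddSubgroup.zsmul_mem _ ?_ _
      exact AddSubgroup.subset_closure (by simp)
    have h2 : (univ.image fun i => π (b i)).card ≤ Module.finrank ℤ (LinearMap.ker φ) :=
      card_image_le.trans (by simp)
    omega
  · obtain ⟨p, hp, hpd⟩ := Nat.exists_prime_and_dvd hg
    refine ⟨t, p, hp.two_le, by rw [hrange, hcl], fun c hc j => ?_⟩
    have hpa : ∀ i, (p : ℤ) ∣ snf.a i := fun i =>
      (Int.natCast_dvd.mpr hpd).trans (Finset.gcd_dvd (mem_univ i))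
    have hcK : c ∈ LinearMap.ker π := by rw [LinearMap.mem_ker, hπ, hc]
    have h1 := congrArg (fun z : LinearMap.ker π => (z : Fin (AddGroup.rank T) → ℤ) j)
      (snf.bN.sum_repr ⟨c, hcK⟩)
    simp only [AddSubmonoidClass.coe_finsetSum, SetLike.val_smul, snf.snf, Finset.sum_apply,
      Pi.smul_apply, smul_eq_mul] at h1
    rw [← h1]
    exact Finset.dvd_sum fun i _ => Dvd.dvd.mul_left ((hpa i).mul_right _) _

/-- The configuration in a product of a free group and a group with chosen generators. -/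
lemma config_prod (d r p : ℕ) (hp : 2 ≤ p) {T : Type*} [AddCommGroup T] (t : Fin r → T)
    (ht : ∀ c : Fin r → ℤ, ∑ j, c j • t j = 0 → ∀ j, (p : ℤ) ∣ c j) :
    ∃ c : Option (Fin d ⊕ Fin d ⊕ Fin r) → (Fin d →₀ ℤ) × T,
      (∃ m : Option (Fin d ⊕ Fin d ⊕ Fin r) → ℕ, ∑ i, m i • c i = 0 ∧ ¬ p ∣ m none) ∧
      ∀ m : Option (Fin d ⊕ Fin d ⊕ Fin r) → ℕ, ∑ i, m i • c i = 0 →
        ∀ j, m j = 0 → p ∣ m none := by
  classical
  let c : Option (Fin d ⊕ Fin d ⊕ Fin r) → (Fin d →₀ ℤ) × T := fun s =>
    match s with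
    | none => (∑ k, Finsupp.single k ((p : ℤ) - 1), -∑ j, t j)
    | some (Sum.inl k) => (Finsupp.single k 1, 0)
    | some (Sum.inr (Sum.inl k)) => (Finsupp.single k (-(p : ℤ)), 0)
    | some (Sum.inr (Sum.inr j)) => (0, t j)
  have h1 : ∀ (m : Option (Fin d ⊕ Fin d ⊕ Fin r) → ℕ) (k : Fin d), (∑ i, m i • c i).1 k =
      (m none : ℤ) * ((p : ℤ) - 1) + m (some (Sum.inl k)) -
        m (some (Sum.inr (Sum.inl k))) * p := by
    intro m k
    simp only [Prod.fst_sum, Prod.smul_fst, Fintype.sum_option, Fintype.sum_sum_type, c,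
      Finsupp.add_apply, Finsupp.finsetSum_apply, Finsupp.smul_apply, Finsupp.single_apply,
      smul_zero, Finset.sum_const_zero, Prod.fst_add, Finsupp.zero_apply, nsmul_eq_mul,
      mul_ite, mul_zero, Finset.sum_ite_eq', mem_univ, if_true]
    ring
  have h2 : ∀ (m : Option (Fin d ⊕ Fin d ⊕ Fin r) → ℕ), (∑ i, m i • c i).2 =
      ∑ j, ((m (some (Sum.inr (Sum.inr j))) : ℤ) - m none) • t j := by
    intro m
    simp only [Prod.snd_sum, Prod.smul_snd, Fintype.sum_option, Fintype.sum_sum_type, c,
      smul_zero, Finset.sum_const_zero, Prod.snd_add, sub_smul, natCast_zsmul,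
      Finset.sum_sub_distrib, smul_neg, Finset.smul_sum, zero_add]
    abel
  refine ⟨c, ⟨fun _ => 1, ?_, ?_⟩, fun m hm j hj => ?_⟩
  · refine Prod.ext ?_ ?_
    · ext k
      rw [h1]
      simp
    · rw [h2]
      simp
  · intro h
    have := Nat.le_of_dvd one_pos h
    omega
  · have hp' : (2 : ℤ) ≤ p := by exact_mod_cast hp
    have e1 : ∀ k, (m none : ℤ) * ((p : ℤ) - 1) + m (some (Sum.inl k)) -
        m (some (Sum.inr (Sum.inl k))) * p = 0 := fun k => by rw [← h1, hm]; rfl
    have e2 := ht _ (by rw [← h2, hm]; rfl)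
    rw [← Int.natCast_dvd_natCast]
    rcases j with _ | k | k | j
    · simp [hj]
    · have h := e1 k
      rw [hj] at h
      exact ⟨(m none : ℤ) - m (some (Sum.inr (Sum.inl k))), by push_cast at h; linarith⟩
    · have h := e1 k
      rw [hj] at h
      have ha : (0 : ℤ) ≤ m (some (Sum.inl k)) := Int.natCast_nonneg _
      have hu : (0 : ℤ) ≤ m none := Int.natCast_nonneg _
      have h0 : (m none : ℤ) = 0 := by
        push_cast at h
        nlinarith
      simp [h0]
    · have h := e2 j
      rw [hj] at h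
      simpa using h

lemma finrank_le_of_equiv {X : Type*} [AddCommGroup X] [AddGroup.FG X] {d : ℕ} {T : Type*}
    [AddCommGroup T] [Finite T] (φ : X ≃+ (Fin d →₀ ℤ) × T) : Module.finrank ℤ X ≤ d := by
  have hfin : Module.Finite ℤ X := Module.Finite.iff_addGroup_fg.mpr inferInstance
  let f : X →ₗ[ℤ] (Fin d →₀ ℤ) :=
    ((AddMonoidHom.fst _ _).comp φ.toAddMonoidHom).toIntLinearMap
  have h1 := (LinearMap.ker f).finrank_quotient_add_finrank
  have h2 : Module.finrank ℤ (LinearMap.ker f) = 0 := by
    rw [Module.finrank_eq_zero_iff]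
    intro x
    refine ⟨(Nat.card T : ℤ), by exact_mod_cast Nat.card_pos.ne', ?_⟩
    apply Subtype.ext
    apply φ.injective
    have hx : (φ x).1 = 0 := x.2
    rw [SetLike.val_smul, map_zsmul, ZeroMemClass.coe_zero, map_zero]
    refine Prod.ext ?_ ?_
    · simp [hx]
    · simp [card_nsmul_eq_zero']
  have h3 : Module.finrank ℤ (X ⧸ LinearMap.ker f) ≤ d := by
    rw [f.quotKerEquivRange.finrank_eq]
    exact (Submodule.finrank_le _).trans (by simp)
  omega

lemma rank_le_of_equiv {X : Type*} [AddCommGroup X] [AddGroup.FG X] {d r : ℕ} {T : Type*}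
    [AddCommGroup T] (φ : X ≃+ (Fin d →₀ ℤ) × T) (t : Fin r → T)
    (hcl : AddSubgroup.closure (Set.range t) = ⊤) : AddGroup.rank X ≤ d + r := by
  classical
  let gen : Fin d ⊕ Fin r → X := fun s =>
    φ.symm (Sum.elim (fun k => (Finsupp.single k 1, 0)) (fun j => (0, t j)) s)
  have h : AddGroup.rank X ≤ (univ.image gen).card := by
    apply AddGroup.rank_le
    rw [eq_top_iff]
    intro x _
    set H := AddSubgroup.closure ((univ.image gen : Finset X) : Set X) with hH
    have hgen : ∀ s, gen s ∈ H := fun s => AddSubgroup.subset_closure (by simp)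
    have hy : ∀ y : Fin d →₀ ℤ, φ.symm (y, 0) ∈ H := by
      intro y
      induction y using Finsupp.induction_linear with
      | zero =>
        rw [Prod.mk_zero_zero, map_zero]
        exact H.zero_mem
      | add a b ha hb =>
        have := H.add_mem ha hb
        rwa [← map_add, Prod.mk_add_mk, add_zero] at this
      | single k a =>
        have := H.zsmul_mem (hgen (Sum.inl k)) a
        simp only [gen, Sum.elim_inl] at this
        rw [← map_zsmul] at this
        simpa using this
    have hz : ∀ z : T, φ.symm (0, z) ∈ H := by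
      intro z
      have hz : z ∈ AddSubgroup.closure (Set.range t) := hcl ▸ AddSubgroup.mem_top z
      induction hz using AddSubgroup.closure_induction with
      | mem z hz =>
        obtain ⟨j, rfl⟩ := hz
        exact hgen (Sum.inr j)
      | zero =>
        rw [Prod.mk_zero_zero, map_zero]
        exact H.zero_mem
      | add a b _ _ ha hb =>
        have := H.add_mem ha hb
        rwa [← map_add, Prod.mk_add_mk, add_zero] at this
      | neg a _ ha =>
        have := H.neg_mem ha
        rwa [← map_neg, Prod.neg_mk, neg_zero] at this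
    have hx : x = φ.symm ((φ x).1, 0) + φ.symm (0, (φ x).2) := by
      rw [← map_add]
      simp
    rw [hx]
    exact H.add_mem (hy _) (hz _)
  exact h.trans (card_image_le.trans (by simp))

lemma exists_config_aux {X : Type*} [AddCommGroup X] [AddGroup.FG X] {d : ℕ} {T : Type*}
    [AddCommGroup T] [Finite T] (φ : X ≃+ (Fin d →₀ ℤ) × T) :
    ∃ (n : ℕ) (χ : Fin n → X) (u : Fin n) (p : ℕ),
      1 + Module.finrank ℤ X + AddGroup.rank X ≤ n ∧
      (∃ m : Fin n → ℕ, ∑ i, m i • χ i = 0 ∧ ¬ p ∣ m u) ∧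
      ∀ m : Fin n → ℕ, ∑ i, m i • χ i = 0 → ∀ j, m j = 0 → p ∣ m u := by
  classical
  obtain ⟨t, p, hp, hcl, ht⟩ := exists_gens_prime T
  obtain ⟨c, ⟨m0, hm0, hm0'⟩, hc⟩ := config_prod d _ p hp t ht
  let e := Fintype.equivFin (Option (Fin d ⊕ Fin d ⊕ Fin (AddGroup.rank T)))
  have hsum : ∀ m : Fin (Fintype.card (Option (Fin d ⊕ Fin d ⊕ Fin (AddGroup.rank T)))) → ℕ,
      ∑ i, m i • φ.symm (c (e.symm i)) = 0 ↔ ∑ s, m (e s) • c s = 0 := by
    intro m
    rw [← φ.map_eq_zero_iff, map_sum, ← e.sum_comp]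
    simp
  have hd := finrank_le_of_equiv φ
  have hr := rank_le_of_equiv φ t hcl
  refine ⟨_, fun i => φ.symm (c (e.symm i)), e none, p, ?_,
    ⟨fun i => m0 (e.symm i), ?_, ?_⟩, fun m hm j hj => ?_⟩
  · simp only [Fintype.card_option, Fintype.card_sum, Fintype.card_fin]
    omega
  · rw [hsum]
    simpa using hm0
  · simpa using hm0'
  · exact hc (fun s => m (e s)) ((hsum m).mp hm) (e.symm j) (by simpa using hj)

/-- A family of characters, at least as long as the bound, in which one relation has a coordinate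
prime to `p` while every relation with a zero entry has that coordinate divisible by `p`. -/
theorem exists_config (X : Type*) [AddCommGroup X] [AddGroup.FG X] :
    ∃ (n : ℕ) (χ : Fin n → X) (u : Fin n) (p : ℕ),
      1 + Module.finrank ℤ X + AddGroup.rank X ≤ n ∧
      (∃ m : Fin n → ℕ, ∑ i, m i • χ i = 0 ∧ ¬ p ∣ m u) ∧
      ∀ m : Fin n → ℕ, ∑ i, m i • χ i = 0 → ∀ j, m j = 0 → p ∣ m u := by
  classical
  obtain ⟨d, ι, fι, q, hq, ex, ⟨φ⟩⟩ := AddCommGroup.equiv_free_prod_directSum_zmod X
  have hne : ∀ i, NeZero (q i ^ ex i) := fun i => ⟨pow_ne_zero _ (hq i).ne_zero⟩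
  have hT : Finite (DirectSum ι fun i => ZMod (q i ^ ex i)) :=
    Finite.of_equiv _ (DirectSum.addEquivProd fun i => ZMod (q i ^ ex i)).symm.toEquiv
  exact exists_config_aux φ

end Pool.Agent.Lib.MP_7bc96b_al
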